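import Pool.Agent.Lib.MP_862e0f_P.Main
import Pool.Agent.Lib.MP_862e0f_al.Groups
import Pool.Agent.Lib.MP_862e0f_al.EW.Fin

/-!
# MP_862e0f_al: the answer for all five pairs of categories

Must an epimorphism have dense range? The answer is yes for the pair 1 (finite-dimensional Lie groups,
regular Fréchet-Lie groups), and no for the pairs 2 (Banach-Lie groups, regular Fréchet-Lie groups),
3 (Banach-Lie groups, locally convex Lie groups), 4 (Fréchet-Lie groups, topological groups) and
5 (locally convex Lie groups, topological groups).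
-/

set_option autoImplicit false

namespace Pool.Agent.Results.MP_862e0f_al.AllPairs

open Pool.Agent.Lib.MP_862e0f_al

universe u v w x

/-- `f` is an epimorphism of Hausdorff topological groups: continuous homomorphisms `g₁, g₂` from
`H` to a Hausdorff topological group `K` with `g₁ ∘ f = g₂ ∘ f` are equal. -/
def IsTopGroupEpi (G H : LieGrp.{0, 0}) (f : G.carrier →* H.carrier) : Prop :=
  ∀ (K : Type w) [Group K] [TopologicalSpace K] [IsTopologicalGroup K] [T2Space K]
    (g₁ g₂ : H.carrier →* K), Continuous g₁ → Continuous g₂ → g₁.comp f = g₂.comp f → g₁ = g₂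

/-- The answer to Q1. First part: pair 1, yes. Second part: pairs 2 and 3, no. Third part: pairs 4 and
5, no. -/
theorem result :
    (∀ (G H : LieGrp.{u, v}), H.IsFiniteDim → ∀ f : G.carrier →* H.carrier,
      IsEpi (fun K : LieGrp.{u, u} => K.IsFrechet ∧ K.IsRegular) f → DenseRange f) ∧
    (∃ (G H : LieGrp.{0, 0}) (f : G.carrier →* H.carrier),
      G.IsBanach ∧ H.IsBanach ∧ Countable G.carrier ∧ SecondCountableTopology H.carrier ∧
        IsMorphism G H f ∧ (∀ C : LieGrp.{w, x} → Prop, IsEpi C f) ∧ ¬ DenseRange f) ∧
    (∃ (G H : LieGrp.{0, 0}) (f : G.carrier →* H.carrier),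
      G.IsFrechet ∧ H.IsFrechet ∧ Countable G.carrier ∧ DiscreteTopology G.carrier ∧
        SecondCountableTopology H.carrier ∧ SecondCountableTopology H.model ∧
          ContractibleSpace H.carrier ∧ IsMorphism G H f ∧ IsTopGroupEpi.{w} G H f ∧
            ¬ DenseRange f) :=
  ⟨fun _ _ hH f hf => denseRange_of_isEpi_regular hH f hf,
    ⟨grpG, grpH, incl, grpG_banach, grpH_banach, grpG_countable, grpH_secondCountable,
      incl_morphism, incl_epi, incl_not_dense⟩,
    EW.main⟩

end Pool.Agent.Results.MP_862e0f_al.AllPairs
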