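import Pool.Agent.Lib.MP_862e0f_al.TopMain

/-!
# MP_862e0f_al: epimorphisms onto locally μ-convex Lie groups

Partial affirmative answer to pairs 4 and 5 of Q1 (Frechet-Lie groups resp. locally convex Lie
groups against Hausdorff topological groups): let `H` be a locally convex Lie group which is
locally μ-convex and let `f : G → H` be a homomorphism from any group `G`. If `f` is an
epimorphism with respect to Hausdorff topological groups, then `f` has dense range.
-/

set_option autoImplicit false

namespace Pool.Agent.Results.MP_862e0f_al.MuConvex

open Pool.Agent.Lib.MP_862e0f_al

universe u v w

/-- Every epimorphism (in the sense of Hausdorff topological groups) from a group `G` to a locally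
μ-convex locally convex Lie group `H` has dense range. -/
theorem result (G : Type w) [Group G] (H : LieGrp.{u, v}) (hH : H.IsLocallyMuConvex)
    (f : G →* H.carrier) (hf : IsTopEpi f) : DenseRange f :=
  denseRange_of_isTopEpi H hH f hf

end Pool.Agent.Results.MP_862e0f_al.MuConvex
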